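import Pool.Agent.Helper18_TDE.Defs

/-!
# Module BIG
-/

set_option autoImplicit false
open Finset

universe u

namespace Pool.Agent.Helper3_TDE

open Pool.Agent.Helper18_TDE

/-- a product `de * (al - de)` at most `72` forces `de` or `al - de` to be small -/
theorem small_of_le_half {al de : ℝ} (hA : 969 ≤ al ^ 2) (hal : 0 < al) (hde : 0 < de)
    (h2 : de ≤ al / 2) (h : de * (al - de) ≤ 72) : al * de ≤ 80 := by
  by_contra hcon
  push Not at hcon
  have h3 : al * de ≤ al ^ 2 / 2 := by nlinarith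
  have h4 : 0 ≤ (al * de - 80) * (al ^ 2 / 2 - al * de) :=
    mul_nonneg (by linarith) (by linarith)
  have h5 : de * (al - de) * al ^ 2 ≤ 72 * al ^ 2 :=
    mul_le_mul_of_nonneg_right h (sq_nonneg _)
  have h6 : de * (al - de) * al ^ 2 = (al * de) * al ^ 2 - (al * de) ^ 2 := by ring
  set p := al * de
  set A := al ^ 2
  nlinarith

theorem dicho {al de : ℝ} (hA : 969 ≤ al ^ 2) (hal : 0 < al) (hde : 0 < de) (hlt : de < al)
    (h : de * (al - de) ≤ 72) : al * de ≤ 80 ∨ al * (al - de) ≤ 80 := by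
  rcases le_total de (al / 2) with h2 | h2
  · exact Or.inl (small_of_le_half hA hal hde h2 h)
  · exact Or.inr (small_of_le_half hA hal (by linarith) (by linarith) (by nlinarith))

theorem sq_small {al de : ℝ} (hA : 969 ≤ al ^ 2) (hde : 0 < de) (hal : 0 < al)
    (h : al * de ≤ 80) : de ^ 2 ≤ 7 := by
  by_contra hcon
  push Not at hcon
  have h1 : (al * de) ^ 2 ≤ 80 ^ 2 := by
    have : 0 < al * de := mul_pos hal hde
    nlinarith
  have h2 : (al * de) ^ 2 = al ^ 2 * de ^ 2 := by ring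
  nlinarith

/-- final numerical contradiction, few large values -/
theorem num_small {n t X w : ℝ} (hn : 1000 ≤ n) (ht : 3 ≤ t) (h22 : 22 * t ≤ n) (hw0 : 0 ≤ w)
    (hw : w ≤ 5) (hB : 4 * (n + 3 * t) - 480 ≤ 3 * X)
    (hnorm : X * (X + t) ≤ w * (4 * n + 2 - 3 * t) + (n - w) * (n + 3 * t + 199)) : False := by
  have h1 : w * (3 * n - 6 * t - 197) ≤ 5 * (3 * n) := by
    have h2 : 0 ≤ 3 * n - 6 * t - 197 := by linarith
    nlinarith
  have h3 : X * (X + t) ≤ n * (n + 3 * t + 214) := by nlinarith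
  have hX : 0 < X := by linarith
  have h4 : X * X ≤ n * (n + 3 * t + 214) := by nlinarith
  obtain ⟨P, hP⟩ : ∃ P, P = n + 3 * t - 120 := ⟨_, rfl⟩
  have h5 : 4 * P ≤ 3 * X := by linarith
  have hP1 : 889 ≤ P := by linarith
  have h6 : 16 * (P * P) ≤ 9 * (X * X) := by nlinarith
  have h7 : n * (n + 3 * t + 214) ≤ (P + 111) * (P + 334) := by
    have h8 : n ≤ P + 111 := by linarith
    have h9 : n + 3 * t + 214 = P + 334 := by linarith
    rw [h9]
    nlinarith
  nlinarith

/-- final numerical contradiction, many large values -/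
theorem num_large {n t X w : ℝ} (hn : 1000 ≤ n) (ht : 3 ≤ t) (h22 : 22 * t ≤ n)
    (hw : 6 ≤ w) (hB : w * (4 * (n + 3 * t) - 480) ≤ (2 * w + 1) * X) (h3w : 3 * w ≤ 3 * n - X)
    (hnorm : X * (X + t) ≤ w * (4 * n + 2 - 3 * t) + (n - w) * (n + 3 * t + 199)) : False := by
  obtain ⟨P, hP⟩ : ∃ P, P = n + 3 * t - 120 := ⟨_, rfl⟩
  have hP1 : 889 ≤ P := by linarith
  have hB' : w * (4 * P) ≤ (2 * w + 1) * X := by
    have : 4 * (n + 3 * t) - 480 = 4 * P := by linarith
    rw [this] at hB
    exact hB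
  have h1 : 24 * P ≤ 13 * X := by
    by_contra hcon
    push Not at hcon
    have h2 : (2 * w + 1) * (13 * X) < (2 * w + 1) * (24 * P) :=
      mul_lt_mul_of_pos_left hcon (by linarith)
    nlinarith
  have hX : 0 < X := by linarith
  have h4 : w * (3 * n - 6 * t - 197) ≤ (3 * n - X) * n := by
    have h5 : 0 ≤ 3 * n - 6 * t - 197 := by linarith
    have h6 : w * (3 * n - 6 * t - 197) ≤ ((3 * n - X) / 3) * (3 * n - 6 * t - 197) :=
      mul_le_mul_of_nonneg_right (by linarith) h5
    have h7 : ((3 * n - X) / 3) * (3 * n - 6 * t - 197) ≤ ((3 * n - X) / 3) * (3 * n) :=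
      mul_le_mul_of_nonneg_left (by linarith) (by linarith)
    linarith
  have h8 : X * (X + n + t) ≤ n * (4 * n + 3 * t + 199) := by nlinarith
  have h9 : 24 * P * (24 * P + 13 * (n + t)) ≤ 169 * (X * (X + n + t)) := by
    have h10 : 24 * P * (24 * P + 13 * (n + t)) ≤ (13 * X) * (13 * X + 13 * (n + t)) := by
      apply mul_le_mul h1 (by linarith) (by positivity) (by positivity)
    linarith
  obtain ⟨τ, hτ⟩ : ∃ τ, t = 3 + τ := ⟨t - 3, by ring⟩
  have hτ0 : 0 ≤ τ := by linarith
  have hnP : n = P + 111 - 3 * τ := by linarith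
  have hτ1 : 25 * τ ≤ P + 50 := by linarith
  have h11 : 169 * (n * (4 * n + 3 * t + 199)) =
      169 * ((P + 111) * (4 * P + 652) - τ * (21 * P + 2955) + 27 * (τ * τ)) := by
    rw [hnP, hτ]; ring
  have h12 : 24 * P * (24 * P + 13 * (n + t)) =
      24 * P * (37 * P + 1482) - 624 * (P * τ) := by
    rw [hnP, hτ]; ring
  have h13 : 25 * (τ * τ) ≤ τ * (P + 50) := by nlinarith
  have h14 : 0 ≤ P * τ := by positivity
  nlinarith

theorem big : BigStmt.{u} := by
  classical
  intro V _ _ H _ n m t x v hP hn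
  by_contra hcon
  push Not at hcon
  obtain ⟨a0, b0, hab0⟩ := hcon
  obtain ⟨b, -, hb⟩ := Finset.exists_max_image univ v ⟨a0, mem_univ _⟩
  obtain ⟨a, -, ha⟩ := Finset.exists_min_image univ v ⟨a0, mem_univ _⟩
  replace hb : ∀ z, v z ≤ v b := fun z => hb z (mem_univ z)
  replace ha : ∀ z, v a ≤ v z := fun z => ha z (mem_univ z)
  have hab : v a < v b := by
    rcases lt_or_ge (v a) (v b) with h | h
    · exact h
    · exact absurd (le_antisymm ((hb a0).trans (h.trans (ha b0)))
        ((hb b0).trans (h.trans (ha a0)))) hab0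
  have ht3 := hP.t3
  have htr := hP.tr
  have hxge := hP.x_ge
  -- (0)
  have hmt : m * t + 3 ≤ 2 * n := by omega
  have h22 : 22 * t ≤ n := by
    by_contra h
    push Not at h
    have hm : m ≤ 43 := by
      by_contra hm
      push Not at hm
      have : 44 * t ≤ m * t := Nat.mul_le_mul_right _ hm
      omega
    have h1 : (m + 1) * (m + 2) ≤ 44 * 45 := Nat.mul_le_mul (by omega) (by omega)
    have h2 := hP.had
    omega
  have h3m : 3 * m + 3 ≤ 2 * n := by
    have : 3 * m ≤ m * t := by nlinarith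
    omega
  have hnR : (1000 : ℝ) ≤ n := by exact_mod_cast hn
  have htR : (3 : ℝ) ≤ t := by exact_mod_cast ht3
  have h22R : 22 * (t : ℝ) ≤ n := by exact_mod_cast h22
  have hxR : (n : ℝ) + 3 ≤ x := by exact_mod_cast hxge
  have htrR : 3 * (n : ℝ) = x + m * t := by exact_mod_cast htr
  obtain ⟨N, hN⟩ : ∃ N : ℝ, N = n + 3 * t := ⟨_, rfl⟩
  have hpos := hP.v_pos
  have hc1 := hP.c1 a b ha hb hab
  -- (2)
  set W : Finset V := univ.filter fun z => ¬ (v z ^ 2 ≤ N + 32) with hW
  set L : Finset V := univ.filter fun z => v z ^ 2 ≤ N + 32 with hL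
  have hWm : ∀ z, z ∈ W ↔ ¬ (v z ^ 2 ≤ N + 32) := fun z => by simp [hW]
  have hLm : ∀ z, z ∈ L ↔ v z ^ 2 ≤ N + 32 := fun z => by simp [hL]
  have hWcl : Clq H W := by
    have key : ∀ y z, y ≠ z → v y ≤ v z → ¬ (v y ^ 2 ≤ N + 32) → H.Adj y z := by
      intro y z hyz hle hy
      by_contra hadj
      have h1 := (hP.non y z hyz hadj).2
      have h2 := hP.lt2 y z
      have h3 : 0 ≤ (v z - v y) * (2 * v y - v z) :=
        mul_nonneg (by linarith) (by linarith)
      apply hy
      rw [hN]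
      nlinarith
    intro y hy z hz hyz
    rcases le_total (v y) (v z) with h | h
    · exact key y z hyz h ((hWm y).1 hy)
    · exact (key z y hyz.symm h ((hWm z).1 hz)).symm
  have hWc := hP.clq W hWcl
  have hLW : L.card + W.card = n := by
    rw [hL, hW, ← hP.card]
    exact Finset.card_filter_add_card_filter_not (s := (univ : Finset V))
      (fun z => v z ^ 2 ≤ N + 32)
  have hLc : 2 * t + 9 < L.card := by omega
  -- (3)
  have hlow : ∀ y ∈ L, N - 40 ≤ v y ^ 2 := by
    intro y hy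
    have hy' := (hLm y).1 hy
    have hdg : dg H y ≤ 2 * t + 8 := by
      have h1 := hP.diag y
      have h2 : (dg H y : ℝ) ≤ 2 * t + 8 := by
        rw [h1, hN] at hy'
        linarith
      exact_mod_cast h2
    obtain ⟨y', hy'L, hne, hnadj⟩ : ∃ y' ∈ L, y' ≠ y ∧ ¬ H.Adj y y' := by
      by_contra hall
      push Not at hall
      have hsub : L ⊆ insert y (univ.filter fun z => H.Adj y z) := by
        intro z hz
        rw [Finset.mem_insert]
        by_cases hzy : z = y
        · exact Or.inl hzy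
        · exact Or.inr (by simpa using hall z hz hzy)
      have h1 := Finset.card_le_card hsub
      have h2 := Finset.card_insert_le y (univ.filter fun z => H.Adj y z)
      have h3 : (univ.filter fun z => H.Adj y z).card = dg H y := rfl
      omega
    have h1 := (hP.non y y' hne.symm hnadj).1
    have h2 := (hLm y').1 hy'L
    have h3 : N - 4 ≤ v y * v y' := by
      have := sq_nonneg (v y - v y')
      rw [hN]
      nlinarith
    have hN0 : 1009 ≤ N := by rw [hN]; linarith
    have h4 : (N - 4) ^ 2 ≤ (v y * v y') ^ 2 := by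
      have : 0 ≤ N - 4 := by linarith
      nlinarith
    have h5 : (v y * v y') ^ 2 = v y ^ 2 * v y' ^ 2 := by ring
    have h6 : v y ^ 2 * v y' ^ 2 ≤ v y ^ 2 * (N + 32) :=
      mul_le_mul_of_nonneg_left h2 (sq_nonneg _)
    by_contra hlt
    push Not at hlt
    have h7 : v y ^ 2 * (N + 32) < (N - 40) * (N + 32) :=
      mul_lt_mul_of_pos_right hlt (by linarith)
    nlinarith
  have hN0 : 1009 ≤ N := by rw [hN]; linarith
  -- (4)
  have hdich : ∀ u ∈ W, ∃ y, v y ≤ v u ∧ v y ^ 2 ≤ N + 32 ∧ 969 ≤ v y ^ 2 ∧ N - 40 ≤ v y ^ 2 ∧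
      v y < v u ∧ (v y * (v u - v y) ≤ 80 ∨ v y * (v y - (v u - v y)) ≤ 80) := by
    intro u hu
    obtain ⟨y, hyu, hnadj⟩ := hP.nb u
    have hyL : y ∈ L := by
      rw [hLm]
      by_contra hyW
      exact hnadj (hWcl u hu y ((hWm y).2 hyW) hyu.symm)
    have hy' := (hLm y).1 hyL
    have hyl := hlow y hyL
    have hu' : N + 32 < v u ^ 2 := not_le.1 ((hWm u).1 hu)
    have hlt : v y < v u := by
      have h1 := hpos y
      have h2 := hpos u
      nlinarith
    have hlt2 := hP.lt2 y u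
    have hnon := (hP.non u y hyu.symm hnadj).2
    refine ⟨y, hlt.le, hy', by linarith, hyl, hlt, ?_⟩
    apply dicho (by linarith) (hpos y) (by linarith) (by linarith)
    rw [← hN] at hnon
    nlinarith
  -- (1) and (5)
  have hxt : 4 * (n : ℝ) + 11 - 3 * t ≤ v a ^ 2 + v a * v b + v b ^ 2 := by linarith
  have hbW : b ∈ W := by
    rw [hWm]
    intro hle
    have h1 : v a ^ 2 ≤ v b ^ 2 := by
      have := hpos a
      nlinarith
    have h2 : v a * v b ≤ v b ^ 2 := by
      have := hpos b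
      nlinarith
    rw [hN] at hle
    linarith
  have hbB : 4 * N - 480 ≤ v b ^ 2 := by
    obtain ⟨y, hle, h32, h969, h40, hlt, hd⟩ := hdich b hbW
    have hy0 := hpos y
    have ha0' := hpos a
    rcases hd with hd | hd
    · exfalso
      have h7 := sq_small h969 (sub_pos.2 hlt) hy0 hd
      have h1 : v a ^ 2 ≤ v y ^ 2 := by
        have := ha y
        nlinarith
      have h2 : v a * v b ≤ v y * v b := mul_le_mul_of_nonneg_right (ha y) (hpos b).le
      have h3 : v y ^ 2 + v y * v b + v b ^ 2 = 3 * v y ^ 2 + 3 * (v y * (v b - v y)) +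
        (v b - v y) ^ 2 := by ring
      rw [hN] at h32
      linarith
    · have h1 : v b ^ 2 = 4 * v y ^ 2 - 4 * (v y * (v y - (v b - v y))) +
        (v y - (v b - v y)) ^ 2 := by ring
      have h2 := sq_nonneg (v y - (v b - v y))
      linarith
  -- (6)
  set W2 : Finset V := univ.filter fun z => 4 * N - 480 ≤ v z ^ 2 with hW2
  have hW2m : ∀ z, z ∈ W2 ↔ 4 * N - 480 ≤ v z ^ 2 := fun z => by simp [hW2]
  have hW2W : W2 ⊆ W := by
    intro z hz
    rw [hW2m] at hz
    rw [hWm]
    intro h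
    linarith
  have hother : ∀ z, z ∉ W2 → v z ^ 2 ≤ N + 199 := by
    intro z hz
    by_cases hzW : z ∈ W
    · obtain ⟨y, hle, h32, h969, h40, hlt, hd⟩ := hdich z hzW
      have hy0 := hpos y
      rcases hd with hd | hd
      · have h7 := sq_small h969 (sub_pos.2 hlt) hy0 hd
        have h1 : v z ^ 2 = v y ^ 2 + 2 * (v y * (v z - v y)) + (v z - v y) ^ 2 := by ring
        linarith
      · exfalso
        apply hz
        rw [hW2m]
        have h1 : v z ^ 2 = 4 * v y ^ 2 - 4 * (v y * (v y - (v z - v y))) +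
          (v y - (v z - v y)) ^ 2 := by ring
        have h2 := sq_nonneg (v y - (v z - v y))
        linarith
    · rw [hWm, not_not] at hzW
      linarith
  have hup : ∀ z, v z ^ 2 ≤ 4 * n + 2 - 3 * t := by
    intro z
    have h1 := hP.diag z
    have h2 : (dg H z : ℝ) + 2 ≤ n := by exact_mod_cast hP.dg_le z
    linarith
  have hW2cl : Clq H W2 := fun y hy z hz => hWcl y (hW2W hy) z (hW2W hz)
  have hbW2 : b ∈ W2 := (hW2m b).2 hbB
  have hw1 : 1 ≤ W2.card := Finset.card_pos.2 ⟨b, hbW2⟩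
  have hw1R : (1 : ℝ) ≤ W2.card := by exact_mod_cast hw1
  set w : ℝ := ((W2.card : ℕ) : ℝ) with hw
  set Y : ℝ := (x : ℝ) - t with hY
  have hB1 : 4 * N - 480 ≤ 3 * Y := by
    have h1 := hP.psd {b} (by
      intro y hy z hz hyz
      rw [Finset.mem_singleton] at hy hz
      exact absurd (hy.trans hz.symm) hyz)
    simp only [Finset.sum_singleton, Finset.card_singleton, Nat.cast_one] at h1
    linarith
  have hBpos : 0 < 4 * N - 480 := by linarith
  have hB2 : w * (4 * N - 480) ≤ (2 * w + 1) * Y := by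
    have h1 := hP.psd W2 hW2cl
    have h2 : w * Real.sqrt (4 * N - 480) ≤ ∑ z ∈ W2, v z := by
      rw [hw, ← nsmul_eq_mul, ← Finset.sum_const]
      exact Finset.sum_le_sum fun z hz => Real.sqrt_le_iff.2 ⟨(hpos z).le, (hW2m z).1 hz⟩
    have h3 : (w * Real.sqrt (4 * N - 480)) ^ 2 ≤ (∑ z ∈ W2, v z) ^ 2 := by
      have : 0 ≤ w * Real.sqrt (4 * N - 480) := by positivity
      exact pow_le_pow_left₀ this h2 2
    have h4 : (w * Real.sqrt (4 * N - 480)) ^ 2 = w * (w * (4 * N - 480)) := by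
      rw [mul_pow, Real.sq_sqrt hBpos.le]; ring
    rw [h4] at h3
    have h5 : w * (w * (4 * N - 480)) ≤ w * ((2 * w + 1) * Y) := by
      calc w * (w * (4 * N - 480)) ≤ _ := h3
        _ ≤ _ := h1
        _ = w * ((2 * w + 1) * Y) := by rw [hw, hY]; ring
    exact le_of_mul_le_mul_left h5 (by linarith)
  have h3w : 3 * w ≤ 3 * n - Y := by
    have h1 := hP.clq W2 hW2cl
    have h2 : w ≤ m + 1 := by rw [hw]; exact_mod_cast h1
    have h3 : 3 * w ≤ t * w := by nlinarith
    have h4 : (t : ℝ) * w ≤ t * (m + 1) := mul_le_mul_of_nonneg_left h2 (by linarith)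
    have h5 : (t : ℝ) * (m + 1) = 3 * n - Y := by rw [hY, htrR]; ring
    linarith
  have hnorm : Y * (Y + t) ≤ w * (4 * n + 2 - 3 * t) + (n - w) * (n + 3 * t + 199) := by
    have h1 := hP.norm
    have h2 : ∑ z, v z ^ 2 = ∑ z ∈ W2, v z ^ 2 + ∑ z ∈ univ \ W2, v z ^ 2 := by
      rw [add_comm, Finset.sum_sdiff (Finset.subset_univ _)]
    have h3 : ∑ z ∈ W2, v z ^ 2 ≤ w * (4 * n + 2 - 3 * t) := by
      rw [hw, ← nsmul_eq_mul, ← Finset.sum_const]
      exact Finset.sum_le_sum fun z _ => hup z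
    have h4 : ∑ z ∈ univ \ W2, v z ^ 2 ≤ (n - w) * (n + 3 * t + 199) := by
      have h5 : ((univ \ W2).card : ℝ) = n - w := by
        rw [Finset.card_sdiff_of_subset (Finset.subset_univ _), Finset.card_univ, hP.card,
          Nat.cast_sub (by rw [← hP.card]; exact Finset.card_le_univ _)]
      rw [← h5, ← nsmul_eq_mul, ← Finset.sum_const]
      refine Finset.sum_le_sum fun z hz => ?_
      have := hother z (Finset.mem_sdiff.1 hz).2
      rw [hN] at this
      exact this
    have h5 : Y * (Y + t) = x * (x - t) := by rw [hY]; ring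
    rw [h5, ← h1, h2]
    linarith
  rcases le_total w 5 with h5 | h5
  · exact num_small hnR htR h22R (by linarith) h5 (by rw [← hN]; exact hB1) hnorm
  · have h6 : (6 : ℝ) ≤ w ∨ w ≤ 5 := by
      rcases Nat.lt_or_ge W2.card 6 with h | h
      · right
        rw [hw]
        exact_mod_cast Nat.lt_succ_iff.1 h
      · left
        rw [hw]
        exact_mod_cast h
    rcases h6 with h6 | h6
    · exact num_large hnR htR h22R h6 (by rw [← hN]; exact hB2) h3w hnorm
    · exact num_small hnR htR h22R (by linarith) h6 (by rw [← hN]; exact hB1) hnorm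

end Pool.Agent.Helper3_TDE
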