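import Pool.Agent.Helper18_TDE.Defs

/-!
# Modules MU and RANK
-/

set_option autoImplicit false
open Finset

universe u

namespace Pool.Agent.Helper3_TDE

open Pool.Agent.Helper18_TDE

section

variable {V : Type u} [DecidableEq V] {H : SimpleGraph V} [DecidableRel H.Adj]
  {E : Type*} [NormedAddCommGroup E] [InnerProductSpace ℝ E] {X : V → E}

theorem gm_self (a : V) : gm H a a = 3 := by simp [gm]

theorem gm_adj {a b : V} (h : H.Adj a b) : gm H a b = 2 := by simp [gm, h, h.ne]

theorem gm_non {a b : V} (h : a ≠ b) (h' : ¬ H.Adj a b) : gm H a b = 1 := by simp [gm, h, h']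

theorem gm_symm (a b : V) : gm H a b = gm H b a := by
  unfold gm
  by_cases h : a = b
  · simp [h]
  · have h' : b ≠ a := fun e => h e.symm
    simp only [h, h', if_false, H.adj_comm]

/-- the vectors `e_z` -/
noncomputable def ev (X : V → E) (a b z : V) : E := X z - (1 / 2 : ℝ) • (X a + X b)

theorem inner_ev (hX : ∀ a b, inner ℝ (X a) (X b) = gm H a b) (a b z c : V) :
    inner ℝ (X c) (ev X a b z) = gm H c z - (gm H c a + gm H c b) / 2 := by
  unfold ev
  rw [inner_sub_right, inner_smul_right, inner_add_right, hX, hX, hX]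
  ring

theorem ev_inner (hX : ∀ a b, inner ℝ (X a) (X b) = gm H a b) {a b z w : V} (hab : a ≠ b)
    (nab : ¬ H.Adj a b) (hz : H.Adj a z ∧ H.Adj b z) (hw : H.Adj a w ∧ H.Adj b w) :
    inner ℝ (ev X a b z) (ev X a b w) = gm H z w - 2 := by
  have h1 : inner ℝ (X a) (ev X a b w) = 0 := by
    rw [inner_ev hX, gm_adj hw.1, gm_self, gm_non hab nab]; norm_num
  have h2 : inner ℝ (X b) (ev X a b w) = 0 := by
    rw [inner_ev hX, gm_adj hw.2, gm_self, gm_symm b a, gm_non hab nab]; norm_num
  have h3 : inner ℝ (X z) (ev X a b w) = gm H z w - 2 := by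
    rw [inner_ev hX, gm_symm z a, gm_symm z b, gm_adj hz.1, gm_adj hz.2]; norm_num
  conv_lhs => rw [ev]
  rw [inner_sub_left, inner_smul_left, inner_add_left, h1, h2, h3]
  simp

theorem partner (hX : ∀ a b, inner ℝ (X a) (X b) = gm H a b) {a b z w : V} (hab : a ≠ b)
    (nab : ¬ H.Adj a b) (hz : H.Adj a z ∧ H.Adj b z) (hw : H.Adj a w ∧ H.Adj b w)
    (hzw : z ≠ w) (nzw : ¬ H.Adj z w) : ev X a b z = - ev X a b w := by
  rw [eq_neg_iff_add_eq_zero, ← inner_self_eq_zero (𝕜 := ℝ), inner_add_left, inner_add_right,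
    inner_add_right, ev_inner hX hab nab hz hz, ev_inner hX hab nab hz hw,
    ev_inner hX hab nab hw hz, ev_inner hX hab nab hw hw, gm_self, gm_self, gm_symm w z,
    gm_non hzw nzw]
  norm_num

theorem partner_unique (hX : ∀ a b, inner ℝ (X a) (X b) = gm H a b) {a b z w w' : V}
    (hab : a ≠ b) (nab : ¬ H.Adj a b) (hz : H.Adj a z ∧ H.Adj b z) (hw : H.Adj a w ∧ H.Adj b w)
    (hw' : H.Adj a w' ∧ H.Adj b w') (hzw : z ≠ w) (nzw : ¬ H.Adj z w) (hzw' : z ≠ w')
    (nzw' : ¬ H.Adj z w') : w = w' := by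
  by_contra hne
  have h1 := partner hX hab nab hz hw hzw nzw
  have h2 := partner hX hab nab hz hw' hzw' nzw'
  have h3 : ev X a b w = ev X a b w' := by
    have := h1.symm.trans h2
    exact neg_injective this
  have h4 := ev_inner hX hab nab hw hw'
  rw [← h3, ev_inner hX hab nab hw hw, gm_self] at h4
  have h5 : gm H w w' ≤ 2 := by
    by_cases h : H.Adj w w'
    · rw [gm_adj h]
    · rw [gm_non hne h]; norm_num
  linarith

theorem bessel (hX : ∀ a b, inner ℝ (X a) (X b) = gm H a b) {a b c : V} (hab : a ≠ b)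
    (nab : ¬ H.Adj a b) (hcb : c ≠ b) (hca : H.Adj c a) (ncb : ¬ H.Adj c b)
    (S : Finset V) (hS : ∀ z ∈ S, H.Adj a z ∧ H.Adj b z) (hcl : Clq H S) : S.card ≤ 6 := by
  classical
  set q : V → ℝ := fun z => inner ℝ (X c) (ev X a b z) with hq
  have hqz : ∀ z ∈ S, q z ^ 2 = 1 / 4 := by
    intro z hz
    have hz' := hS z hz
    have hcz : c ≠ z := by
      rintro rfl
      exact ncb hz'.2.symm
    simp only [hq]
    rw [inner_ev hX, gm_adj hca, gm_non hcb ncb]
    by_cases h : H.Adj c z
    · rw [gm_adj h]; norm_num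
    · rw [gm_non hcz h]; norm_num
  have horth : ∀ z ∈ S, ∀ w ∈ S, inner ℝ (ev X a b z) (ev X a b w) = if z = w then (1 : ℝ) else 0 := by
    intro z hz w hw
    rw [ev_inner hX hab nab (hS z hz) (hS w hw)]
    split_ifs with h
    · subst h
      rw [gm_self]; norm_num
    · rw [gm_adj (hcl z hz w hw h)]; norm_num
  have ha0 : ∀ z ∈ S, inner ℝ (X a) (ev X a b z) = 0 := by
    intro z hz
    rw [inner_ev hX, gm_adj (hS z hz).1, gm_self, gm_non hab nab]; norm_num
  have hb0 : ∀ z ∈ S, inner ℝ (X b) (ev X a b z) = 0 := by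
    intro z hz
    rw [inner_ev hX, gm_adj (hS z hz).2, gm_self, gm_symm b a, gm_non hab nab]; norm_num
  set P : E := ∑ z ∈ S, q z • ev X a b z with hP
  have hPP : inner ℝ P P = (S.card : ℝ) / 4 := by
    rw [hP, sum_inner]
    have : ∀ z ∈ S, inner ℝ (q z • ev X a b z) (∑ w ∈ S, q w • ev X a b w) = 1 / 4 := by
      intro z hz
      rw [inner_sum]
      have h2 : ∀ w ∈ S, inner ℝ (q z • ev X a b z) (q w • ev X a b w) =
          if z = w then q z * q z else 0 := by
        intro w hw
        rw [inner_smul_left, inner_smul_right, horth z hz w hw]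
        split_ifs with h
        · subst h; simp
        · simp
      rw [Finset.sum_congr rfl h2, Finset.sum_ite_eq, if_pos hz, ← pow_two, hqz z hz]
    rw [Finset.sum_congr rfl this, Finset.sum_const, nsmul_eq_mul]
    ring
  have hcP : inner ℝ (X c) P = (S.card : ℝ) / 4 := by
    rw [hP, inner_sum]
    have : ∀ z ∈ S, inner ℝ (X c) (q z • ev X a b z) = 1 / 4 := by
      intro z hz
      rw [inner_smul_right]
      change q z * q z = _
      rw [← pow_two, hqz z hz]
    rw [Finset.sum_congr rfl this, Finset.sum_const, nsmul_eq_mul]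
    ring
  have haP : inner ℝ (X a) P = 0 := by
    rw [hP, inner_sum]
    exact Finset.sum_eq_zero fun z hz => by rw [inner_smul_right, ha0 z hz, mul_zero]
  have hbP : inner ℝ (X b) P = 0 := by
    rw [hP, inner_sum]
    exact Finset.sum_eq_zero fun z hz => by rw [inner_smul_right, hb0 z hz, mul_zero]
  have h0 : 0 ≤ inner ℝ (X c - (5 / 8 : ℝ) • X a - (1 / 8 : ℝ) • X b - P)
      (X c - (5 / 8 : ℝ) • X a - (1 / 8 : ℝ) • X b - P) := real_inner_self_nonneg
  have hPc : inner ℝ P (X c) = (S.card : ℝ) / 4 := by rw [real_inner_comm]; exact hcP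
  have hPa : inner ℝ P (X a) = 0 := by rw [real_inner_comm]; exact haP
  have hPb : inner ℝ P (X b) = 0 := by rw [real_inner_comm]; exact hbP
  simp only [inner_sub_left, inner_sub_right, inner_smul_left, inner_smul_right, hX, hPP, hcP,
    haP, hbP, hPc, hPa, hPb, gm_self, gm_symm a c, gm_symm b c, gm_symm b a, gm_adj hca,
    gm_non hcb ncb, gm_non hab nab, conj_trivial] at h0
  have h1 : (S.card : ℝ) < 7 := by nlinarith
  have h2 : S.card < 7 := by exact_mod_cast h1
  omega

end

theorem mu : MuStmt.{u} := by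
  classical
  intro V _ _ H _ m y hy a b c hab nab hcb hca ncb
  set X : V → EuclideanSpace ℝ (Fin (m + 1)) := fun z => WithLp.toLp 2 (fun i => y i z) with hXd
  have hX : ∀ u v, inner ℝ (X u) (X v) = gm H u v := by
    intro u v
    rw [← hy u v, hXd]
    simp only [PiLp.inner_apply, RCLike.inner_apply, conj_trivial]
    exact Finset.sum_congr rfl fun i _ => mul_comm _ _
  set N : Finset V := univ.filter fun z => H.Adj a z ∧ H.Adj b z with hN
  have hNm : ∀ z, z ∈ N ↔ H.Adj a z ∧ H.Adj b z := fun z => by simp [hN]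
  obtain ⟨S, hS, hmax⟩ := Finset.exists_max_image (N.powerset.filter fun S => Clq H S) card
    ⟨∅, Finset.mem_filter.2 ⟨Finset.empty_mem_powerset _,
      fun a ha => absurd ha (Finset.notMem_empty a)⟩⟩
  rw [Finset.mem_filter, Finset.mem_powerset] at hS
  have h6 : S.card ≤ 6 := bessel hX hab nab hcb hca ncb S
    (fun z hz => (hNm z).1 (hS.1 hz)) hS.2
  have hex : ∀ z ∈ N \ S, ∃ s ∈ S, s ≠ z ∧ ¬ H.Adj s z := by
    intro z hz
    by_contra hcon
    push Not at hcon
    rw [Finset.mem_sdiff] at hz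
    have h1 : insert z S ∈ N.powerset.filter fun S => Clq H S := by
      rw [Finset.mem_filter, Finset.mem_powerset]
      refine ⟨Finset.insert_subset hz.1 hS.1, ?_⟩
      intro u hu v hv huv
      rw [Finset.mem_insert] at hu hv
      rcases hu with rfl | hu
      · rcases hv with rfl | hv
        · exact absurd rfl huv
        · exact (hcon v hv huv.symm).symm
      · rcases hv with rfl | hv
        · exact hcon u hu huv
        · exact hS.2 u hu v hv huv
    have h2 := hmax _ h1
    rw [Finset.card_insert_of_notMem hz.2] at h2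
    omega
  choose! φ hφ using hex
  have hinj : Set.InjOn φ (N \ S : Finset V) := by
    intro z hz w hw hzw
    have h1 := hφ z hz
    have h2 := hφ w hw
    rw [← hzw] at h2
    have hz' : z ∈ N := (Finset.mem_sdiff.1 hz).1
    have hw' : w ∈ N := (Finset.mem_sdiff.1 hw).1
    exact partner_unique hX hab nab ((hNm _).1 (hS.1 h1.1)) ((hNm z).1 hz') ((hNm w).1 hw')
      h1.2.1 h1.2.2 h2.2.1 h2.2.2
  have hcard : (N \ S).card ≤ S.card :=
    Finset.card_le_card_of_injOn φ (fun z hz => (hφ z hz).1) hinj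
  have h3 : N.card = (N \ S).card + S.card := (Finset.card_sdiff_add_card_eq_card hS.1).symm
  have h4 : cn H a b = N.card := rfl
  omega

end Pool.Agent.Helper3_TDE
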