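import Pool.Agent.Helper3_TDE.Mu

set_option autoImplicit false
open Finset

universe u

namespace Pool.Agent.Helper3_TDE

open Pool.Agent.Helper18_TDE

section

variable {V : Type u} [DecidableEq V] {H : SimpleGraph V} [DecidableRel H.Adj]

theorem gm_sq (a b : V) : gm H a b ^ 2 = 3 * gm H a b - 2 + if a = b then 2 else 0 := by
  unfold gm
  split_ifs <;> norm_num

theorem gm_clq {W : Finset V} (hW : Clq H W) {a b : V} (ha : a ∈ W) (hb : b ∈ W) :
    gm H a b = 2 + if a = b then 1 else 0 := by
  by_cases h : a = b
  · subst h
    rw [gm_self, if_pos rfl]; norm_num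
  · rw [gm_adj (hW a ha b hb h), if_neg h]; norm_num

end

theorem rank : RankStmt.{u} := by
  classical
  intro V _ _ H _ m y hy
  constructor
  · intro W hW
    let L : (W → ℝ) →ₗ[ℝ] (Fin (m + 1) → ℝ) :=
      (Matrix.of fun (i : Fin (m + 1)) (z : W) => y i z).mulVecLin
    have hL : ∀ c i, L c i = ∑ z : W, y i z * c z := fun c i => rfl
    have hinj : Function.Injective L := by
      rw [injective_iff_map_eq_zero]
      intro c hc
      have h1 : ∑ i, (∑ z : W, y i z * c z) * (∑ z : W, y i z * c z) = 0 :=
        Finset.sum_eq_zero fun i _ => by rw [← hL, hc]; simp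
      have h2 : ∑ i, (∑ z : W, y i z * c z) * (∑ z : W, y i z * c z) =
          ∑ z : W, ∑ w : W, c z * c w * gm H z w := by
        simp only [Finset.sum_mul_sum]
        rw [Finset.sum_comm]
        refine Finset.sum_congr rfl fun z _ => ?_
        rw [Finset.sum_comm]
        refine Finset.sum_congr rfl fun w _ => ?_
        rw [← hy, Finset.mul_sum]
        exact Finset.sum_congr rfl fun i _ => by ring
      have h3 : ∑ z : W, ∑ w : W, c z * c w * gm H z w =
          2 * ((∑ z : W, c z) * (∑ z : W, c z)) + ∑ z : W, c z * c z := by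
        rw [Finset.sum_mul_sum, Finset.mul_sum, ← Finset.sum_add_distrib]
        refine Finset.sum_congr rfl fun z _ => ?_
        have h4 : c z * c z = ∑ w : W, if z = w then c z * c w else 0 := by
          rw [Finset.sum_ite_eq, if_pos (Finset.mem_univ _)]
        rw [h4, Finset.mul_sum, ← Finset.sum_add_distrib]
        refine Finset.sum_congr rfl fun w _ => ?_
        rw [gm_clq hW z.2 w.2]
        by_cases h : z = w
        · subst h; simp; ring
        · have h' : (z : V) ≠ w := fun e => h (Subtype.ext e)
          simp [h, h']; ring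
      rw [h2, h3] at h1
      have h5 : 0 ≤ (∑ z : W, c z) * (∑ z : W, c z) := mul_self_nonneg _
      have h6 : 0 ≤ ∑ z : W, c z * c z := Finset.sum_nonneg fun z _ => mul_self_nonneg _
      have h7 : ∑ z : W, c z * c z = 0 := by linarith
      rw [Finset.sum_eq_zero_iff_of_nonneg fun z _ => mul_self_nonneg _] at h7
      funext z
      simpa using h7 z (Finset.mem_univ z)
    have := LinearMap.finrank_le_finrank_of_injective hinj
    simpa using this
  · let L : (V → ℝ) →ₗ[ℝ] (ℝ × (Sym2 (Fin (m + 1)) → ℝ)) :=
      { toFun := fun z => (∑ a, z a, fun s => Sym2.lift ⟨fun i j => ∑ a, z a * (y i a * y j a),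
          fun i j => Finset.sum_congr rfl fun a _ => by ring⟩ s)
        map_add' := by
          intro z w
          ext s
          · simp [Finset.sum_add_distrib]
          · induction s using Sym2.ind with
            | _ i j => simp [Finset.sum_add_distrib, add_mul]
        map_smul' := by
          intro r z
          ext s
          · simp [Finset.mul_sum]
          · induction s using Sym2.ind with
            | _ i j => simp [Finset.mul_sum, mul_assoc] }
    have hinj : Function.Injective L := by
      rw [injective_iff_map_eq_zero]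
      intro z hz
      have h0 : ∑ a, z a = 0 := congrArg Prod.fst hz
      have h1 : ∀ i j, ∑ a, z a * (y i a * y j a) = 0 := fun i j =>
        congrFun (congrArg Prod.snd hz) s(i, j)
      have h2 : ∑ a, ∑ b, z a * z b * gm H a b ^ 2 = 0 := by
        have h3 : ∑ i, ∑ j, (∑ a, z a * (y i a * y j a)) * (∑ a, z a * (y i a * y j a)) = 0 :=
          Finset.sum_eq_zero fun i _ => Finset.sum_eq_zero fun j _ => by rw [h1, zero_mul]
        rw [← h3]
        simp only [Finset.sum_mul_sum]
        have h4 : ∀ a b, z a * z b * gm H a b ^ 2 =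
            ∑ i, ∑ j, z a * (y i a * y j a) * (z b * (y i b * y j b)) := by
          intro a b
          rw [← hy, pow_two, Finset.sum_mul_sum, Finset.mul_sum]
          refine Finset.sum_congr rfl fun i _ => ?_
          rw [Finset.mul_sum]
          exact Finset.sum_congr rfl fun j _ => by ring
        simp only [h4]
        calc ∑ a, ∑ b, ∑ i, ∑ j, z a * (y i a * y j a) * (z b * (y i b * y j b))
            = ∑ a, ∑ i, ∑ b, ∑ j, z a * (y i a * y j a) * (z b * (y i b * y j b)) :=
              Finset.sum_congr rfl fun a _ => Finset.sum_comm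
          _ = ∑ i, ∑ a, ∑ b, ∑ j, z a * (y i a * y j a) * (z b * (y i b * y j b)) :=
              Finset.sum_comm
          _ = ∑ i, ∑ a, ∑ j, ∑ b, z a * (y i a * y j a) * (z b * (y i b * y j b)) :=
              Finset.sum_congr rfl fun i _ => Finset.sum_congr rfl fun a _ => Finset.sum_comm
          _ = _ := Finset.sum_congr rfl fun i _ => Finset.sum_comm
      have h5 : ∑ a, ∑ b, z a * z b * gm H a b = ∑ i, (∑ a, z a * y i a) * (∑ a, z a * y i a) := by
        simp only [Finset.sum_mul_sum]
        symm
        rw [Finset.sum_comm]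
        refine Finset.sum_congr rfl fun a _ => ?_
        rw [Finset.sum_comm]
        refine Finset.sum_congr rfl fun b _ => ?_
        rw [← hy, Finset.mul_sum]
        exact Finset.sum_congr rfl fun i _ => by ring
      have h6 : 0 ≤ ∑ a, ∑ b, z a * z b * gm H a b := by
        rw [h5]; exact Finset.sum_nonneg fun i _ => mul_self_nonneg _
      have h7 : ∑ a, ∑ b, z a * z b * gm H a b ^ 2 =
          3 * ∑ a, ∑ b, z a * z b * gm H a b - 2 * ((∑ a, z a) * (∑ a, z a)) +
            2 * ∑ a, z a * z a := by
        rw [Finset.sum_mul_sum, Finset.mul_sum, Finset.mul_sum, Finset.mul_sum,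
          ← Finset.sum_sub_distrib, ← Finset.sum_add_distrib]
        refine Finset.sum_congr rfl fun a _ => ?_
        have h8 : 2 * (z a * z a) = ∑ b, if a = b then 2 * (z a * z b) else 0 := by
          rw [Finset.sum_ite_eq, if_pos (Finset.mem_univ _)]
        rw [h8, Finset.mul_sum, Finset.mul_sum, ← Finset.sum_sub_distrib,
          ← Finset.sum_add_distrib]
        refine Finset.sum_congr rfl fun b _ => ?_
        rw [gm_sq]
        by_cases h : a = b
        · simp [h]; ring
        · simp [h]; ring
      rw [h7, h0] at h2
      have h9 : 0 ≤ ∑ a, z a * z a := Finset.sum_nonneg fun a _ => mul_self_nonneg _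
      have h10 : ∑ a, z a * z a = 0 := by linarith
      rw [Finset.sum_eq_zero_iff_of_nonneg fun z _ => mul_self_nonneg _] at h10
      funext a
      simpa using h10 a (Finset.mem_univ a)
    have h := LinearMap.finrank_le_finrank_of_injective hinj
    rw [Module.finrank_prod, Module.finrank_fintype_fun_eq_card,
      Module.finrank_fintype_fun_eq_card, Sym2.card, Module.finrank_self, Fintype.card_fin,
      Nat.choose_two_right] at h
    have h1 : 2 * ((m + 1 + 1) * (m + 1 + 1 - 1) / 2) ≤ (m + 1 + 1) * (m + 1 + 1 - 1) :=
      Nat.mul_div_le _ _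
    have h2 : (m + 1 + 1) * (m + 1 + 1 - 1) = (m + 1) * (m + 2) := by
      rw [Nat.add_sub_cancel]; ring
    omega

end Pool.Agent.Helper3_TDE
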