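import Pool.Agent.Helper3_TDE.Mu

/-!
# Module SPEC
-/

set_option autoImplicit false
open Finset

universe u

namespace Pool.Agent.Helper3_TDE

open Pool.Agent.Helper18_TDE

section diag

variable {V : Type u} [Fintype V] [DecidableEq V]

/-- A real symmetric matrix with its orthonormal eigenbasis, written with plain sums. -/
structure Diag (A : Matrix V V ℝ) (lam : V → ℝ) (U : V → V → ℝ) : Prop where
  row : ∀ a c, ∑ i, U i a * U i c = if a = c then 1 else 0
  col : ∀ i j, ∑ a, U i a * U j a = if i = j then 1 else 0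
  eig : ∀ i a, ∑ c, A a c * U i c = lam i * U i a
  spec : spectrum ℝ A = Set.range lam

theorem exists_diag {A : Matrix V V ℝ} (hA : A.IsHermitian) : ∃ lam U, Diag A lam U := by
  classical
  refine ⟨hA.eigenvalues, fun i a => hA.eigenvectorBasis i a, ?_, ?_, ?_, ?_⟩
  · intro a c
    have h := hA.eigenvectorBasis.sum_inner_mul_inner (EuclideanSpace.single a (1 : ℝ))
      (EuclideanSpace.single c (1 : ℝ))
    simp only [EuclideanSpace.inner_single_left, EuclideanSpace.inner_single_right,
      conj_trivial, one_mul] at h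
    rw [h, PiLp.single_apply]
    simp only [eq_comm]
  · intro i j
    have h := orthonormal_iff_ite.1 hA.eigenvectorBasis.orthonormal i j
    rw [PiLp.inner_apply] at h
    rw [← h]
    refine Finset.sum_congr rfl fun a _ => ?_
    simp [mul_comm]
  · intro i a
    have h := congrFun (hA.mulVec_eigenvectorBasis i) a
    simpa [Matrix.mulVec, dotProduct] using h
  · exact hA.spectrum_real_eq_range_eigenvalues

theorem Diag.entry {A : Matrix V V ℝ} {lam : V → ℝ} {U : V → V → ℝ} (h : Diag A lam U)
    (a c : V) : A a c = ∑ i, lam i * (U i a * U i c) := by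
  have h1 : A a c = ∑ d, A a d * (if d = c then 1 else 0) := by simp
  rw [h1]
  simp only [← h.row, Finset.mul_sum]
  rw [Finset.sum_comm]
  refine Finset.sum_congr rfl fun i _ => ?_
  rw [← mul_assoc, ← h.eig, Finset.sum_mul]
  exact Finset.sum_congr rfl fun d _ => by ring

theorem Diag.quad {A : Matrix V V ℝ} {lam : V → ℝ} {U : V → V → ℝ} (h : Diag A lam U)
    (z : V → ℝ) : ∑ a, ∑ c, A a c * (z a * z c) = ∑ i, lam i * (∑ a, U i a * z a) ^ 2 := by
  simp only [h.entry, pow_two, Finset.mul_sum, Finset.sum_mul]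
  calc ∑ a, ∑ c, ∑ i, lam i * (U i a * U i c) * (z a * z c)
      = ∑ a, ∑ i, ∑ c, lam i * (U i a * U i c) * (z a * z c) :=
        Finset.sum_congr rfl fun a _ => Finset.sum_comm
    _ = ∑ i, ∑ a, ∑ c, lam i * (U i a * U i c) * (z a * z c) := Finset.sum_comm
    _ = _ := Finset.sum_congr rfl fun i _ => Finset.sum_congr rfl fun a _ =>
        Finset.sum_congr rfl fun c _ => by ring

theorem Diag.parseval {A : Matrix V V ℝ} {lam : V → ℝ} {U : V → V → ℝ} (h : Diag A lam U)
    (z : V → ℝ) : ∑ a, z a * z a = ∑ i, (∑ a, U i a * z a) ^ 2 := by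
  simp only [pow_two, Finset.sum_mul_sum]
  calc ∑ a, z a * z a = ∑ a, ∑ c, (if a = c then 1 else 0) * (z a * z c) :=
        Finset.sum_congr rfl fun a _ => by simp
    _ = ∑ a, ∑ c, ∑ i, (U i a * z a) * (U i c * z c) :=
        Finset.sum_congr rfl fun a _ => Finset.sum_congr rfl fun c _ => by
          rw [← h.row, Finset.sum_mul]
          exact Finset.sum_congr rfl fun i _ => by ring
    _ = ∑ a, ∑ i, ∑ c, (U i a * z a) * (U i c * z c) :=
        Finset.sum_congr rfl fun a _ => Finset.sum_comm
    _ = _ := Finset.sum_comm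

theorem Diag.expand {A : Matrix V V ℝ} {lam : V → ℝ} {U : V → V → ℝ} (h : Diag A lam U)
    (z : V → ℝ) (a : V) : ∑ c, A a c * z c = ∑ i, lam i * (∑ c, U i c * z c) * U i a := by
  simp only [h.entry, Finset.sum_mul, Finset.mul_sum]
  rw [Finset.sum_comm]
  exact Finset.sum_congr rfl fun i _ => Finset.sum_congr rfl fun c _ => by ring

theorem Diag.expand_one {A : Matrix V V ℝ} {lam : V → ℝ} {U : V → V → ℝ} (h : Diag A lam U)
    (z : V → ℝ) (a : V) : z a = ∑ i, (∑ c, U i c * z c) * U i a := by
  simp only [Finset.sum_mul]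
  rw [Finset.sum_comm]
  have : ∀ c, ∑ i, U i c * z c * U i a = z c * if c = a then 1 else 0 := by
    intro c
    rw [← h.row, Finset.mul_sum]
    exact Finset.sum_congr rfl fun i _ => by ring
  simp [this]

/-- Perron: if all entries are at least `1` and `x > 0` is the largest eigenvalue, an eigenvector
for `x` has all products `u_a u_c` positive. -/
theorem Diag.perron {A : Matrix V V ℝ} {lam : V → ℝ} {U : V → V → ℝ} (h : Diag A lam U)
    (hA : ∀ a c, 1 ≤ A a c) {x : ℝ} (hx : 0 < x) (hle : ∀ i, lam i ≤ x) {i : V}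
    (hi : lam i = x) : ∀ a c, 0 < U i a * U i c := by
  set u := U i with hu
  set z : V → ℝ := fun a => |u a| with hz
  have hzz : ∑ a, z a * z a = 1 := by
    have h1 := h.col i i
    rw [if_pos rfl] at h1
    rw [← h1]
    exact Finset.sum_congr rfl fun a _ => by simp [hz, abs_mul_abs_self, hu]
  have hq1 : ∑ a, ∑ c, A a c * (u a * u c) = x := by
    have h1 : ∀ a, ∑ c, A a c * (u a * u c) = x * (u a * u a) := by
      intro a
      have h2 : ∑ c, A a c * (u a * u c) = u a * ∑ c, A a c * u c := by
        rw [Finset.mul_sum]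
        exact Finset.sum_congr rfl fun c _ => by ring
      rw [h2, h.eig, hi]; ring
    simp only [h1]
    rw [← Finset.mul_sum, h.col i i, if_pos rfl, mul_one]
  have hterm : ∀ a c, A a c * (u a * u c) ≤ A a c * (z a * z c) := by
    intro a c
    apply mul_le_mul_of_nonneg_left _ (by linarith [hA a c])
    simp only [hz]
    rw [← abs_mul]
    exact le_abs_self _
  have hq2 : x ≤ ∑ a, ∑ c, A a c * (z a * z c) := by
    rw [← hq1]
    exact Finset.sum_le_sum fun a _ => Finset.sum_le_sum fun c _ => hterm a c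
  have hq3 : ∑ a, ∑ c, A a c * (z a * z c) = ∑ j, lam j * (∑ a, U j a * z a) ^ 2 := h.quad z
  have hq4 : ∑ j, (∑ a, U j a * z a) ^ 2 = 1 := by rw [← h.parseval, hzz]
  have hnn : ∀ j ∈ univ, 0 ≤ (x - lam j) * (∑ a, U j a * z a) ^ 2 := fun j _ =>
    mul_nonneg (by linarith [hle j]) (sq_nonneg _)
  have hq5 : ∑ j, (x - lam j) * (∑ a, U j a * z a) ^ 2 ≤ 0 := by
    simp only [sub_mul, Finset.sum_sub_distrib]
    rw [← Finset.mul_sum, hq4, ← hq3]
    linarith
  have hq6 : ∑ j, (x - lam j) * (∑ a, U j a * z a) ^ 2 = 0 :=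
    le_antisymm hq5 (Finset.sum_nonneg hnn)
  have hq7 := (Finset.sum_eq_zero_iff_of_nonneg hnn).1 hq6
  -- `z` is an eigenvector
  have heig : ∀ a, ∑ c, A a c * z c = x * z a := by
    intro a
    rw [h.expand, h.expand_one z a, Finset.mul_sum]
    refine Finset.sum_congr rfl fun j hj => ?_
    have h1 := hq7 j hj
    rcases mul_eq_zero.1 h1 with h2 | h2
    · have : lam j = x := by linarith
      rw [this]; ring
    · have : ∑ a, U j a * z a = 0 := by
        exact pow_eq_zero_iff (two_ne_zero) |>.1 h2
      rw [this]; ring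
  have hz0 : ∀ a, 0 ≤ z a := fun a => abs_nonneg _
  have hsum : 0 < ∑ c, z c := by
    by_contra hcon
    push Not at hcon
    have h1 : ∑ c, z c = 0 := le_antisymm hcon (Finset.sum_nonneg fun c _ => hz0 c)
    have h2 := (Finset.sum_eq_zero_iff_of_nonneg (fun c _ => hz0 c)).1 h1
    rw [Finset.sum_eq_zero fun a ha => by rw [h2 a ha, mul_zero]] at hzz
    exact zero_ne_one hzz
  have hzpos : ∀ a, 0 < z a := by
    intro a
    have h1 : ∑ c, z c ≤ ∑ c, A a c * z c :=
      Finset.sum_le_sum fun c _ => le_mul_of_one_le_left (hz0 c) (hA a c)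
    rw [heig] at h1
    exact (mul_pos_iff_of_pos_left hx).1 (lt_of_lt_of_le hsum h1)
  have hq8 : ∑ a, ∑ c, A a c * (z a * z c) = x := by
    have h1 : ∑ j, lam j * (∑ a, U j a * z a) ^ 2 ≤ ∑ j, x * (∑ a, U j a * z a) ^ 2 :=
      Finset.sum_le_sum fun j _ => mul_le_mul_of_nonneg_right (hle j) (sq_nonneg _)
    rw [← Finset.mul_sum, hq4, ← hq3] at h1
    linarith
  have hq9 : ∑ a, ∑ c, (A a c * (z a * z c) - A a c * (u a * u c)) = 0 := by
    simp only [Finset.sum_sub_distrib]
    rw [hq8, hq1, sub_self]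
  intro a c
  have h1 := (Finset.sum_eq_zero_iff_of_nonneg (fun a _ => Finset.sum_nonneg fun c _ =>
    sub_nonneg.2 (hterm a c))).1 hq9 a (mem_univ a)
  have h2 := (Finset.sum_eq_zero_iff_of_nonneg (fun c _ =>
    sub_nonneg.2 (hterm a c))).1 h1 c (mem_univ c)
  have h3 : A a c * (z a * z c) = A a c * (u a * u c) := sub_eq_zero.1 h2
  have h4 : z a * z c = u a * u c :=
    mul_left_cancel₀ (by have := hA a c; positivity) h3
  rw [← h4]
  exact mul_pos (hzpos a) (hzpos c)

end diag

section main

variable {V : Type u} [Fintype V] [DecidableEq V]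

theorem exists_step {G : SimpleGraph V} (hG : G.Connected) {u w : V} {n : ℕ}
    (h : G.dist u w = n + 1) : ∃ v, G.Adj u v ∧ G.dist v w = n := by
  obtain ⟨p, hp⟩ := hG.exists_walk_length_eq_dist u w
  cases p with
  | nil => rw [SimpleGraph.dist_self] at h; omega
  | @cons _ v _ ha q =>
    refine ⟨v, ha, ?_⟩
    rw [SimpleGraph.Walk.length_cons, h] at hp
    have h1 : G.dist v w ≤ q.length := SimpleGraph.dist_le q
    have h2 : G.dist u w ≤ G.dist u v + G.dist v w := hG.dist_triangle
    have h3 : G.dist u v = 1 := SimpleGraph.dist_eq_one_iff_adj.2 ha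
    omega

theorem exists_three {G : SimpleGraph V} (hG : G.Connected) (w : V) :
    ∀ (n : ℕ) (u : V), G.dist u w = n + 3 → ∃ u', G.dist u' w = 3
  | 0, u, h => ⟨u, by omega⟩
  | n + 1, u, h => by
    obtain ⟨v, -, hv⟩ := exists_step hG (n := n + 3) (by omega)
    exact exists_three hG w n v hv

theorem distMatrix_herm (G : SimpleGraph V) : (distMatrix G).IsHermitian := by
  ext a b
  simp [distMatrix, Matrix.conjTranspose_apply, SimpleGraph.dist_comm]

/-- the matrix `D + 3` -/
noncomputable def shifted (G : SimpleGraph V) : Matrix V V ℝ :=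
  algebraMap ℝ (Matrix V V ℝ) 3 + distMatrix G

theorem shifted_apply (G : SimpleGraph V) (a b : V) :
    shifted G a b = (if a = b then 3 else 0) + (G.dist a b : ℝ) := by
  simp [shifted, distMatrix, Matrix.algebraMap_eq_diagonal, Matrix.diagonal_apply]

theorem shifted_herm (G : SimpleGraph V) : (shifted G).IsHermitian := by
  ext a b
  rw [Matrix.conjTranspose_apply, shifted_apply, shifted_apply, SimpleGraph.dist_comm]
  simp [eq_comm]

theorem shifted_spectrum (G : SimpleGraph V) :
    spectrum ℝ (shifted G) = (fun r => r + 3) '' spectrum ℝ (distMatrix G) := by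
  ext r
  constructor
  · intro h
    refine ⟨r - 3, ?_, by ring⟩
    have h1 : (r - 3) + 3 ∈ spectrum ℝ (algebraMap ℝ (Matrix V V ℝ) 3 + distMatrix G) := by
      simpa [shifted] using h
    exact spectrum.add_mem_add_iff.1 h1
  · rintro ⟨s, hs, rfl⟩
    exact spectrum.add_mem_add_iff.2 hs

theorem no_far {G : SimpleGraph V} (hG : G.Connected) {lam : V → ℝ} {U : V → V → ℝ}
    (h : Diag (shifted G) lam U) (hnn : ∀ i, 0 ≤ lam i) (a b : V) : G.dist a b ≤ 2 := by
  by_contra hcon
  push Not at hcon
  obtain ⟨p0, h03⟩ := exists_three hG b (G.dist a b - 3) a (by omega)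
  obtain ⟨p1, a01, h13⟩ := exists_step hG (n := 2) h03
  obtain ⟨p2, a12, h23⟩ := exists_step hG (n := 1) h13
  have h01 : G.dist p0 p1 = 1 := SimpleGraph.dist_eq_one_iff_adj.2 a01
  have h12 : G.dist p1 p2 = 1 := SimpleGraph.dist_eq_one_iff_adj.2 a12
  have h02 : G.dist p0 p2 = 2 := by
    have h1 : G.dist p0 b ≤ G.dist p0 p2 + G.dist p2 b := hG.dist_triangle
    have h2 : G.dist p0 p2 ≤ G.dist p0 p1 + G.dist p1 p2 := hG.dist_triangle
    omega
  have ne : ∀ {x y : V} {n : ℕ}, G.dist x y = n → n ≠ 0 → x ≠ y := by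
    rintro x y n h1 h2 rfl
    rw [SimpleGraph.dist_self] at h1
    exact h2 h1.symm
  have e00 : ∀ x, shifted G x x = 3 := fun x => by rw [shifted_apply]; simp
  have e : ∀ {x y : V} {n : ℕ}, G.dist x y = n → n ≠ 0 → shifted G x y = n := by
    intro x y n h1 h2
    rw [shifted_apply, if_neg (ne h1 h2), h1, zero_add]
  have hR : 0 ≤ ∑ i, lam i * (2 * U i p0 + U i p1 - U i p2 - 2 * U i b) ^ 2 :=
    Finset.sum_nonneg fun i _ => mul_nonneg (hnn i) (sq_nonneg _)
  have hS : ∑ i, lam i * (2 * U i p0 + U i p1 - U i p2 - 2 * U i b) ^ 2 =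
      4 * shifted G p0 p0 + shifted G p1 p1 + shifted G p2 p2 + 4 * shifted G b b +
      4 * shifted G p0 p1 - 4 * shifted G p0 p2 - 8 * shifted G p0 b - 2 * shifted G p1 p2 -
      4 * shifted G p1 b + 4 * shifted G p2 b := by
    simp only [h.entry, Finset.mul_sum, ← Finset.sum_add_distrib, ← Finset.sum_sub_distrib]
    exact Finset.sum_congr rfl fun i _ => by ring
  rw [hS, e00, e00, e00, e00, e h01 (by norm_num), e h02 (by norm_num), e h03 (by norm_num),
    e h12 (by norm_num), e h13 (by norm_num), e h23 (by norm_num)] at hR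
  norm_num at hR

theorem three_set {S : Set ℝ} (h3 : S.ncard = 3) (h0 : IsLeast S 0) :
    ∃ θ x : ℝ, 0 < θ ∧ θ < x ∧ S = {0, θ, x} := by
  obtain ⟨p, q, r, hpq, hpr, hqr, rfl⟩ := Set.ncard_eq_three.1 h3
  have hp : 0 ≤ p := h0.2 (by simp)
  have hq : 0 ≤ q := h0.2 (by simp)
  have hr : 0 ≤ r := h0.2 (by simp)
  have h00 := h0.1
  simp only [Set.mem_insert_iff, Set.mem_singleton_iff] at h00
  have key : ∀ u v : ℝ, 0 ≤ u → 0 ≤ v → u ≠ 0 → v ≠ 0 → u ≠ v →
      ∃ θ x : ℝ, 0 < θ ∧ θ < x ∧ ({0, u, v} : Set ℝ) = {0, θ, x} := by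
    intro u v hu hv hu0 hv0 huv
    rcases lt_or_gt_of_ne huv with h | h
    · exact ⟨u, v, lt_of_le_of_ne hu hu0.symm, h, rfl⟩
    · exact ⟨v, u, lt_of_le_of_ne hv hv0.symm, h, by ext z; simp; tauto⟩
  rcases h00 with h | h | h
  · subst h
    exact key q r hq hr hpq.symm hpr.symm hqr
  · subst h
    have e : ({p, 0, r} : Set ℝ) = {0, p, r} := Set.insert_comm _ _ _
    rw [e]
    exact key p r hp hr hpq hqr.symm hpr
  · subst h
    have e : ({p, q, 0} : Set ℝ) = {0, p, q} := by
      rw [Set.pair_comm q 0, Set.insert_comm]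
    rw [e]
    exact key p q hp hq hpr hqr hpq

end main

theorem spec : SpecStmt.{u} := by
  classical
  intro V _ _ G _ hG h3 hleast
  have hsp := shifted_spectrum G
  have hinj : Function.Injective fun r : ℝ => r + 3 := add_left_injective 3
  have h3' : (spectrum ℝ (shifted G)).ncard = 3 := by
    rw [hsp, Set.ncard_image_of_injective _ hinj, h3]
  have hl' : IsLeast (spectrum ℝ (shifted G)) 0 := by
    rw [hsp]
    refine ⟨⟨-3, hleast.1, by norm_num⟩, ?_⟩
    rintro _ ⟨s, hs, rfl⟩
    have := hleast.2 hs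
    change 0 ≤ s + 3
    linarith
  obtain ⟨θ, x, hθ, hθx, hS⟩ := three_set h3' hl'
  obtain ⟨lam, U, hD⟩ := exists_diag (shifted_herm G)
  have hrange : Set.range lam = {0, θ, x} := by rw [← hD.spec, hS]
  have hlam : ∀ i, lam i = 0 ∨ lam i = θ ∨ lam i = x := by
    intro i
    have : lam i ∈ ({0, θ, x} : Set ℝ) := hrange ▸ Set.mem_range_self i
    simpa using this
  have hx : 0 < x := hθ.trans hθx
  have hnn : ∀ i, 0 ≤ lam i := by
    intro i
    rcases hlam i with h | h | h <;> rw [h] <;> linarith
  have hle : ∀ i, lam i ≤ x := by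
    intro i
    rcases hlam i with h | h | h <;> rw [h] <;> linarith
  have hdist := no_far hG hD hnn
  have hdist2 : ∀ a b, a ≠ b → ¬ G.Adj a b → G.dist a b = 2 := by
    intro a b hab hadj
    have h1 := hdist a b
    have h2 : G.dist a b ≠ 0 := by
      rw [hG.dist_eq_zero_iff.ne]
      exact hab
    have h4 : G.dist a b ≠ 1 := fun h => hadj (SimpleGraph.dist_eq_one_iff_adj.1 h)
    omega
  have hgm : ∀ a b, shifted G a b = gm Gᶜ a b := by
    intro a b
    rw [shifted_apply, gm]
    by_cases hab : a = b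
    · subst hab; simp
    · by_cases hadj : G.Adj a b
      · rw [SimpleGraph.dist_eq_one_iff_adj.2 hadj]
        simp [hab, hadj, SimpleGraph.compl_adj]
      · rw [hdist2 a b hab hadj]
        simp [hab, hadj, SimpleGraph.compl_adj]
  have hone : ∀ a c, 1 ≤ shifted G a c := by
    intro a c
    rw [hgm, gm]
    split_ifs <;> norm_num
  obtain ⟨k0, hk0⟩ : (0 : ℝ) ∈ Set.range lam := by rw [hrange]; simp
  obtain ⟨i0, hi0⟩ : x ∈ Set.range lam := by rw [hrange]; simp
  have hker : ∀ a, ∑ b, gm Gᶜ a b * U k0 b = 0 := by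
    intro a
    have := hD.eig k0 a
    rw [hk0, zero_mul] at this
    simpa only [hgm] using this
  have hUk : U k0 ≠ 0 := by
    intro h
    have := hD.col k0 k0
    rw [h] at this
    simp at this
  refine ⟨?_, hdist2, ⟨U k0, hUk, hker⟩, ?_⟩
  · -- not complete
    intro htop
    apply hUk
    have h1 : ∀ a, ∑ b, U k0 b + 2 * U k0 a = 0 := by
      intro a
      rw [← hker a]
      have h2 : ∀ b, gm Gᶜ a b * U k0 b = U k0 b + if a = b then 2 * U k0 b else 0 := by
        intro b
        rw [gm]
        by_cases hab : a = b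
        · subst hab; simp; ring
        · simp [hab, SimpleGraph.compl_adj, htop]
      simp only [h2, Finset.sum_add_distrib, Finset.sum_ite_eq, Finset.mem_univ, if_true]
    have h2 : ∑ a, (∑ b, U k0 b + 2 * U k0 a) = 0 := Finset.sum_eq_zero fun a _ => h1 a
    rw [Finset.sum_add_distrib, Finset.sum_const, nsmul_eq_mul, ← Finset.mul_sum] at h2
    have h4 : ((Finset.card (univ : Finset V) : ℝ) + 2) * ∑ b, U k0 b = 0 := by linarith
    have h5 : ∑ b, U k0 b = 0 := by
      rcases mul_eq_zero.1 h4 with h | h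
      · have : (0 : ℝ) ≤ (Finset.card (univ : Finset V) : ℝ) := Nat.cast_nonneg _
        linarith
      · exact h
    funext a
    have := h1 a
    rw [h5] at this
    simp only [Pi.zero_apply]
    linarith
  · have hsign := fun i (hi : lam i = x) => hD.perron hone hx hle hi
    have huniq : ∀ i, lam i = x → i = i0 := by
      intro i hi
      by_contra hne
      have h1 := hD.col i i0
      rw [if_neg hne] at h1
      have a0 : V := i0
      have h2 : ∀ a, 0 < (U i a * U i0 a) * (U i a0 * U i0 a0) := by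
        intro a
        have h3 := hsign i hi a a0
        have h4 := hsign i0 hi0 a a0
        have h5 := mul_pos h3 h4
        calc 0 < U i a * U i a0 * (U i0 a * U i0 a0) := h5
          _ = _ := by ring
      have h3 : 0 < ∑ a, (U i a * U i0 a) * (U i a0 * U i0 a0) :=
        Finset.sum_pos (fun a _ => h2 a) ⟨a0, mem_univ _⟩
      rw [← Finset.sum_mul, h1, zero_mul] at h3
      exact lt_irrefl _ h3
    have hlam2 : ∀ i, lam i * lam i = θ * lam i + if i = i0 then x * (x - θ) else 0 := by
      intro i
      by_cases hi : i = i0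
      · subst hi
        rw [if_pos rfl, hi0]; ring
      · rw [if_neg hi]
        rcases hlam i with h | h | h
        · rw [h]; ring
        · rw [h]; ring
        · exact absurd (huniq i h) hi
    set c : ℝ := Real.sqrt (x * (x - θ)) with hc
    have hcc : c * c = x * (x - θ) :=
      Real.mul_self_sqrt (mul_nonneg hx.le (by linarith))
    have hc0 : 0 < c := Real.sqrt_pos.2 (mul_pos hx (by linarith))
    set v : V → ℝ := fun a => c * |U i0 a| with hv
    have habs : ∀ a b, |U i0 a| * |U i0 b| = U i0 a * U i0 b := by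
      intro a b
      rw [← abs_mul, abs_of_pos (hsign i0 hi0 a b)]
    -- the index set of the Gram vectors
    set I : Type u := {i : V // lam i ≠ 0} with hI
    have hcardpos : 0 < Fintype.card I := Fintype.card_pos_iff.2 ⟨⟨i0, by rw [hi0]; exact hx.ne'⟩⟩
    obtain ⟨m, hm⟩ : ∃ m, Fintype.card I = m + 1 := ⟨Fintype.card I - 1, by omega⟩
    let e : Fin (m + 1) ≃ I := (Fintype.equivFinOfCardEq hm).symm
    refine ⟨m, x, θ, v, fun k a => Real.sqrt (lam (e k)) * U (e k) a, ?_⟩
    have hU0 : ∀ a, U i0 a ≠ 0 := fun a h => by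
      have := hsign i0 hi0 a a
      rw [h, zero_mul] at this
      exact lt_irrefl _ this
    have hsumI : ∀ f : V → ℝ, ∑ k, lam (e k) * f (e k) = ∑ i, lam i * f i := by
      intro f
      rw [Equiv.sum_comp e (fun i : I => lam i * f i)]
      rw [← Finset.sum_filter_of_ne (p := fun i => lam i ≠ 0) (s := univ)
        (f := fun i => lam i * f i) (fun i _ h => left_ne_zero_of_mul h)]
      have hmem : ∀ i, i ∈ univ.filter (fun i => lam i ≠ 0) ↔ lam i ≠ 0 := fun i => by
        rw [Finset.mem_filter]
        exact ⟨fun h => h.2, fun h => ⟨mem_univ _, h⟩⟩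
      exact (Finset.sum_subtype _ hmem (fun i => lam i * f i)).symm
    refine ⟨hθ, hθx, ?_, ?_, ?_, ?_, ?_, ?_⟩
    · intro a
      exact mul_pos hc0 (abs_pos.2 (hU0 a))
    · intro a b
      rw [← hgm, hD.entry, ← hsumI]
      refine Finset.sum_congr rfl fun k _ => ?_
      have := Real.mul_self_sqrt (hnn (e k))
      calc Real.sqrt (lam (e k)) * U (e k) a * (Real.sqrt (lam (e k)) * U (e k) b)
          = (Real.sqrt (lam (e k)) * Real.sqrt (lam (e k))) * (U (e k) a * U (e k) b) := by ring
        _ = _ := by rw [this]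
    · intro a b
      simp only [← hgm]
      have h1 : ∑ z, shifted G a z * shifted G z b = ∑ i, lam i * lam i * (U i a * U i b) := by
        have h2 : ∀ z, shifted G z b = ∑ i, lam i * (U i z * U i b) := fun z => hD.entry z b
        simp only [h2, Finset.mul_sum]
        rw [Finset.sum_comm]
        refine Finset.sum_congr rfl fun i _ => ?_
        have h4 : ∀ z, shifted G a z * (lam i * (U i z * U i b)) =
            (shifted G a z * U i z) * (lam i * U i b) := fun z => by ring
        simp only [h4]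
        rw [← Finset.sum_mul, hD.eig]
        ring
      rw [h1, hD.entry a b]
      simp only [hlam2, add_mul, Finset.sum_add_distrib, Finset.mul_sum]
      congr 1
      · exact Finset.sum_congr rfl fun i _ => by ring
      · rw [Finset.sum_eq_single i0 (fun i _ hi => by rw [if_neg hi, zero_mul])
          (fun h => absurd (mem_univ _) h), if_pos rfl, ← hcc, ← habs]
        simp only [hv]
        ring
    · intro a
      simp only [← hgm, hv]
      -- the sign of `U i0` is constant
      obtain ⟨s, hs⟩ : ∃ s : ℝ, ∀ z, |U i0 z| = U i0 z * s := by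
        refine ⟨U i0 a / |U i0 a|, fun z => ?_⟩
        have h2 := habs z a
        have h4 : |U i0 a| ≠ 0 := abs_ne_zero.2 (hU0 a)
        field_simp
        linarith
      have h2 : ∀ z, shifted G a z * (c * |U i0 z|) =
          (shifted G a z * U i0 z) * (c * s) := by
        intro z
        rw [hs z]; ring
      simp only [h2]
      rw [← Finset.sum_mul, hD.eig, hi0, hs a]
      ring
    · have h1 : ∀ z, v z ^ 2 = (c * c) * (U i0 z * U i0 z) := by
        intro z
        rw [hv]
        simp only
        rw [← habs z z]; ring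
      simp only [h1]
      rw [← Finset.mul_sum, hD.col, if_pos rfl, hcc, mul_one]
    · have h1 : ∑ a, shifted G a a = 3 * (Fintype.card V : ℝ) := by
        have : ∀ a, shifted G a a = 3 := fun a => by rw [shifted_apply]; simp
        simp only [this, Finset.sum_const, nsmul_eq_mul]
        rw [Finset.card_univ]; ring
      have h2 : ∑ a, shifted G a a = ∑ i, lam i := by
        have : ∀ a, shifted G a a = ∑ i, lam i * (U i a * U i a) := fun a => hD.entry a a
        simp only [this]
        rw [Finset.sum_comm]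
        refine Finset.sum_congr rfl fun i _ => ?_
        rw [← Finset.mul_sum, hD.col, if_pos rfl, mul_one]
      rw [← h1, h2]
      have h4 : ∑ i, lam i = ∑ k, lam (e k) := by
        have := hsumI fun _ => 1
        simp only [mul_one] at this
        exact this.symm
      rw [h4, Equiv.sum_comp e (fun i : I => lam i)]
      obtain ⟨j0, hj0⟩ : ∃ j : I, (j : V) = i0 := ⟨⟨i0, by rw [hi0]; exact hx.ne'⟩, rfl⟩
      have h5 : ∀ i : I, lam i = θ + if i = j0 then x - θ else 0 := by
        rintro ⟨i, hi⟩
        by_cases hii : i = i0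
        · subst hii
          rw [if_pos (Subtype.ext hj0.symm)]
          change lam i = _
          rw [hi0]; ring
        · rw [if_neg (fun h => hii ((congrArg Subtype.val h).trans hj0))]
          rcases hlam i with h | h | h
          · exact absurd h hi
          · change lam i = _
            rw [h]; ring
          · exact absurd (huniq i h) hii
      rw [Finset.sum_congr rfl fun i _ => h5 i, Finset.sum_add_distrib, Finset.sum_const,
        Finset.sum_eq_single j0 (fun i _ hi => if_neg hi) (fun h => absurd (mem_univ _) h),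
        if_pos rfl, nsmul_eq_mul, Finset.card_univ, hm]
      push_cast
      ring

end Pool.Agent.Helper3_TDE
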